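import Mathlib

set_option autoImplicit false

open Finset

namespace Pool.Agent.H509Z.ZSRam

/-- vertices of the star with `a` leaves together with `t` disjoint edges -/
abbrev V (a t : ℕ) := Option (Fin a) ⊕ (Fin t × Bool)

def adj {a t : ℕ} : V a t → V a t → Prop
  | Sum.inl none, Sum.inl (some _) => True
  | Sum.inl (some _), Sum.inl none => True
  | Sum.inr p, Sum.inr q => p.1 = q.1 ∧ p.2 ≠ q.2
  | _, _ => False

theorem adj_symm {a t : ℕ} {u v : V a t} (h : adj u v) : adj v u := by
  rcases u with (_ | u) | u <;> rcases v with (_ | v) | v <;> simp_all [adj]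
  exact fun h' => h.2 h'.symm

theorem adj_irrefl {a t : ℕ} (u : V a t) : ¬ adj u u := by
  rcases u with (_ | u) | u <;> simp [adj]

theorem card_V (a t : ℕ) : Fintype.card (V a t) = 1 + a + 2 * t := by
  simp [V]; ring

open Classical in
theorem sum_adj {a t : ℕ} {M : Type} [AddCommMonoid M] (g : V a t → M) :
    (∑ u, ∑ v, if adj u v then g u else 0) =
      a • g (Sum.inl none) + ((∑ i, g (Sum.inl (some i))) + ∑ p, g (Sum.inr p)) := by
  rw [Fintype.sum_sum_type, Fintype.sum_option, add_assoc]
  congr 1
  · rw [Fintype.sum_sum_type, Fintype.sum_option]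
    simp [adj]
  congr 1
  · refine Finset.sum_congr rfl fun i _ => ?_
    rw [Fintype.sum_sum_type, Fintype.sum_option]
    simp [adj]
  · refine Finset.sum_congr rfl fun p _ => ?_
    rw [Fintype.sum_sum_type]
    have h1 : (∑ x : Option (Fin a), if adj (Sum.inr p : V a t) (Sum.inl x) then g (Sum.inr p) else 0) = 0 := by
      refine Finset.sum_eq_zero fun x _ => ?_
      rcases x with _ | x <;> simp [adj]
    rw [h1, zero_add, Finset.sum_eq_single (p.1, !p.2)]
    · simp [adj]
    · rintro ⟨i, b⟩ _ hne
      rw [if_neg]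
      rintro ⟨h1, h2⟩
      apply hne
      simp only at h1 h2
      rw [← h1]
      cases hb : p.2 <;> cases b <;> simp_all
    · simp

section two

variable {α : Type} [DecidableEq α] [Fintype α] (c : Sym2 α → Bool)

def Found (a t : ℕ) (b : Bool) : Prop :=
  ∃ f : V a t → α, Function.Injective f ∧ ∀ u v, adj u v → c s(f u, f v) = b

def nb (b : Bool) (u : α) : Finset α := univ.filter fun x => x ≠ u ∧ c s(u, x) = b

theorem mem_nb {b : Bool} {u x : α} : x ∈ nb c b u ↔ x ≠ u ∧ c s(u, x) = b := by simp [nb]

theorem card_nb (b : Bool) (u : α) : (nb c b u).card + (nb c (!b) u).card + 1 = Fintype.card α := by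
  have h1 : Disjoint (nb c b u) (nb c (!b) u) := by
    rw [Finset.disjoint_left]
    intro x h1 h2
    rw [mem_nb] at h1 h2
    have := h1.2.symm.trans h2.2
    cases b <;> simp at this
  have h2 : nb c b u ∪ nb c (!b) u = univ.erase u := by
    ext x
    simp only [mem_union, mem_nb, mem_erase, mem_univ, and_true]
    constructor
    · rintro (h | h) <;> exact h.1
    · intro h
      cases b <;> cases hc : c s(u, x) <;> simp [h]
  rw [← Finset.card_union_of_disjoint h1, h2, Finset.card_erase_add_one (mem_univ u), card_univ]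

omit [Fintype α] in
theorem matching_or_clique (b : Bool) (t : ℕ) : ∀ U : Finset α,
    (∃ g : Fin t × Bool → α, Function.Injective g ∧ (∀ p, g p ∈ U) ∧
      ∀ i, c s(g (i, false), g (i, true)) = b) ∨
    ∃ W ⊆ U, U.card ≤ W.card + 2 * t ∧ ∀ x ∈ W, ∀ y ∈ W, x ≠ y → c s(x, y) = !b := by
  induction t with
  | zero =>
    intro U
    left
    exact ⟨fun p => p.1.elim0, fun p => p.1.elim0, fun p => p.1.elim0, fun i => i.elim0⟩
  | succ t ih =>
    intro U
    by_cases h : ∀ x ∈ U, ∀ y ∈ U, x ≠ y → c s(x, y) = !b
    · right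
      exact ⟨U, subset_rfl, by omega, h⟩
    push Not at h
    obtain ⟨x, hx, y, hy, hxy, hc⟩ := h
    have hc' : c s(x, y) = b := by cases b <;> simp_all
    rcases ih ((U.erase x).erase y) with ⟨g, hg, hU, hcol⟩ | ⟨W, hW, hcard, hcol⟩
    · left
      have hgx : ∀ p, g p ≠ x := fun p h => by have := hU p; simp [h] at this
      have hgy : ∀ p, g p ≠ y := fun p h => by have := hU p; simp [h] at this
      refine ⟨fun p => Fin.cases (if p.2 then y else x) (fun j => g (j, p.2)) p.1, ?_, ?_, ?_⟩
      · rintro ⟨i, d⟩ ⟨j, e⟩ h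
        induction i using Fin.cases with
        | zero =>
          induction j using Fin.cases with
          | zero => cases d <;> cases e <;> simp_all [eq_comm]
          | succ j =>
            exfalso
            cases d
            · exact hgx (j, e) (by simpa using h.symm)
            · exact hgy (j, e) (by simpa using h.symm)
        | succ i =>
          induction j using Fin.cases with
          | zero =>
            exfalso
            cases e
            · exact hgx (i, d) (by simpa using h)
            · exact hgy (i, d) (by simpa using h)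
          | succ j =>
            have := hg (show g (i, d) = g (j, e) by simpa using h)
            simp only [Prod.mk.injEq] at this
            rw [this.1, this.2]
      · rintro ⟨i, d⟩
        induction i using Fin.cases with
        | zero => cases d <;> simp [hx, hy]
        | succ i =>
          have := hU (i, d)
          simpa using (mem_of_mem_erase (mem_of_mem_erase this))
      · intro i
        induction i using Fin.cases with
        | zero => simpa using hc'
        | succ i => simpa using hcol i
    · right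
      refine ⟨W, hW.trans ((erase_subset _ _).trans (erase_subset _ _)), ?_, hcol⟩
      have h1 := Finset.pred_card_le_card_erase (s := U) (a := x)
      have h2 := Finset.pred_card_le_card_erase (s := U.erase x) (a := y)
      omega

omit [DecidableEq α] [Fintype α] in
theorem exists_emb {β : Type} [Fintype β] (W : Finset α) (h : Fintype.card β ≤ W.card) :
    ∃ e : β → α, Function.Injective e ∧ ∀ x, e x ∈ W := by
  obtain ⟨e⟩ : Nonempty (β ↪ W) := Function.Embedding.nonempty_of_card_le (by simpa using h)
  exact ⟨fun x => e x, fun x y h => e.injective (Subtype.ext h), fun x => (e x).2⟩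

omit [DecidableEq α] [Fintype α] in
theorem found_of_clique {a t : ℕ} {b : Bool} (W : Finset α) (h : 1 + a + 2 * t ≤ W.card)
    (hcol : ∀ x ∈ W, ∀ y ∈ W, x ≠ y → c s(x, y) = b) : Found c a t b := by
  obtain ⟨e, he, hW⟩ := exists_emb (β := V a t) W (by rw [card_V]; exact h)
  refine ⟨e, he, fun u v huv => hcol _ (hW u) _ (hW v) fun h => ?_⟩
  have := he h
  subst this
  exact adj_irrefl _ huv

theorem found_of_matching {a t : ℕ} {b : Bool} (u : α) (g : Fin t × Bool → α)
    (hg : Function.Injective g) (hu : ∀ p, g p ≠ u)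
    (hcol : ∀ i, c s(g (i, false), g (i, true)) = b)
    (h : a ≤ (nb c b u \ univ.image g).card) : Found c a t b := by
  obtain ⟨e, he, hW⟩ := exists_emb (β := Fin a) _ (by simpa using h)
  have h1 : ∀ i, e i ≠ u ∧ c s(u, e i) = b := fun i => (mem_nb c).1 (mem_sdiff.1 (hW i)).1
  have h2 : ∀ i p, g p ≠ e i := fun i p h =>
    (mem_sdiff.1 (hW i)).2 (mem_image.2 ⟨p, mem_univ _, h⟩)
  refine ⟨Sum.elim (fun o => o.elim u e) g, ?_, ?_⟩
  · rintro ((_ | x) | x) ((_ | y) | y) h <;> simp only [Sum.elim_inl, Sum.elim_inr, Option.elim] at h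
    · rfl
    · exact absurd h.symm (h1 y).1
    · exact absurd h.symm (hu y)
    · exact absurd h (h1 x).1
    · rw [he h]
    · exact absurd h.symm (h2 x y)
    · exact absurd h (hu x)
    · exact absurd h (h2 y x)
    · rw [hg h]
  · rintro ((_ | x) | ⟨i, d⟩) ((_ | y) | ⟨j, e'⟩) h <;> simp only [adj] at h <;>
      simp only [Sum.elim_inl, Sum.elim_inr, Option.elim]
    · exact (h1 y).2
    · rw [Sym2.eq_swap]; exact (h1 x).2
    · obtain ⟨rfl, h⟩ := h
      cases d <;> cases e'
      · simp at h
      · exact hcol i
      · rw [Sym2.eq_swap]; exact hcol i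
      · simp at h

theorem two_colour (t : ℕ) (hN : Fintype.card α = 27 * t + 2) :
    ∃ b, Found c (13 * t) t b := by
  by_contra hno
  push Not at hno
  -- step A
  have hA : ∀ b u, (nb c b u).card + 1 ≤ 15 * t := by
    intro b u
    by_contra hd
    rcases matching_or_clique c b t (univ.erase u) with ⟨g, hg, hU, hcol⟩ | ⟨W, -, hcard, hcol⟩
    · apply hno b
      refine found_of_matching c u g hg (fun p => (mem_erase.1 (hU p)).1) hcol ?_
      have h1 := Finset.le_card_sdiff (univ.image g) (nb c b u)
      have h2 : (univ.image g).card ≤ 2 * t := by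
        refine card_image_le.trans ?_
        simp [mul_comm]
      omega
    · apply hno (!b)
      refine found_of_clique c W ?_ hcol
      rw [card_erase_of_mem (mem_univ u), card_univ, hN] at hcard
      omega
  -- step B
  have hB : ∀ b u, 13 * t ≤ (nb c b u).card → ∃ W ⊆ nb c (!b) u, 10 * t + 2 ≤ W.card ∧
      ∀ x ∈ W, ∀ y ∈ W, x ≠ y → c s(x, y) = !b := by
    intro b u hd
    rcases matching_or_clique c b t (nb c (!b) u) with ⟨g, hg, hU, hcol⟩ | ⟨W, hW, hcard, hcol⟩
    · exfalso
      apply hno b
      refine found_of_matching c u g hg (fun p => ((mem_nb c).1 (hU p)).1) hcol ?_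
      have : nb c b u \ univ.image g = nb c b u := by
        rw [Finset.sdiff_eq_self_iff_disjoint, Finset.disjoint_left]
        intro x hx hx'
        obtain ⟨p, -, rfl⟩ := mem_image.1 hx'
        have h1 := ((mem_nb c).1 hx).2
        have h2 := ((mem_nb c).1 (hU p)).2
        rw [h1] at h2
        cases b <;> simp at h2
      rw [this]; exact hd
    · refine ⟨W, hW, ?_, hcol⟩
      have h1 := card_nb c b u
      have h2 := hA b u
      omega
  -- step C
  have hC : ∀ W W' : Finset α, 10 * t + 2 ≤ W.card → 10 * t + 2 ≤ W'.card →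
      (∀ x ∈ W, ∀ y ∈ W, x ≠ y → c s(x, y) = true) →
      (∀ x ∈ W', ∀ y ∈ W', x ≠ y → c s(x, y) = false) → False := by
    intro W W' hW hW' hc hc'
    have hint : (W ∩ W').card ≤ 1 := by
      rw [Finset.card_le_one]
      intro x hx y hy
      by_contra hne
      have h1 := hc x (mem_inter.1 hx).1 y (mem_inter.1 hy).1 hne
      have h2 := hc' x (mem_inter.1 hx).2 y (mem_inter.1 hy).2 hne
      simp [h1] at h2
    have key : ∀ (b : Bool) (A B : Finset α), 10 * t + 2 ≤ A.card →
        (∀ x ∈ A, ∀ y ∈ A, x ≠ y → c s(x, y) = b) → ∀ w ∈ A,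
        ((B \ A).filter fun y => c s(w, y) = b).card ≤ 5 * t := by
      intro b A B hA' hcA w hw
      have h1 : A.erase w ∪ ((B \ A).filter fun y => c s(w, y) = b) ⊆ nb c b w := by
        intro y hy
        rw [mem_nb]
        rcases mem_union.1 hy with hy | hy
        · exact ⟨(mem_erase.1 hy).1, hcA w hw y (mem_erase.1 hy).2 (mem_erase.1 hy).1.symm⟩
        · obtain ⟨h1, h2⟩ := mem_filter.1 hy
          exact ⟨fun h => (mem_sdiff.1 h1).2 (h ▸ hw), h2⟩
      have h2 : Disjoint (A.erase w) ((B \ A).filter fun y => c s(w, y) = b) := by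
        rw [Finset.disjoint_left]
        intro y h1 h2
        exact (mem_sdiff.1 (mem_filter.1 h2).1).2 (mem_erase.1 h1).2
      have h3 := card_le_card h1
      rw [card_union_of_disjoint h2, card_erase_of_mem hw] at h3
      have := hA b w
      omega
    have hx : 10 * t + 1 ≤ (W \ W').card := by
      have := Finset.card_sdiff_add_card_inter W W'
      omega
    have hy : 10 * t + 1 ≤ (W' \ W).card := by
      have := Finset.card_sdiff_add_card_inter W' W
      rw [inter_comm] at this
      omega
    have h := Finset.card_mul_le_card_mul (s := W \ W') (t := W' \ W)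
      (fun x y => c s(x, y) = false) (m := (W' \ W).card - 5 * t) (n := 5 * t) ?_ ?_
    · obtain ⟨x, hx'⟩ := Nat.exists_eq_add_of_le hx
      obtain ⟨y, hy'⟩ := Nat.exists_eq_add_of_le hy
      rw [hx', hy', show 10 * t + 1 + y - 5 * t = 5 * t + 1 + y by omega] at h
      nlinarith
    · intro w hw
      have h1 := key true W W' hW hc w (mem_sdiff.1 hw).1
      have h2 := Finset.card_filter_add_card_filter_not (s := W' \ W) (fun y => c s(w, y) = true)
      have h3 : ((W' \ W).bipartiteAbove (fun x y => c s(x, y) = false) w) =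
          (W' \ W).filter (fun y => ¬ c s(w, y) = true) := by
        ext y; simp [Finset.bipartiteAbove]
      rw [h3]
      omega
    · intro w hw
      have h1 := key false W' W hW' hc' w (mem_sdiff.1 hw).1
      have h3 : ((W \ W').bipartiteBelow (fun x y => c s(x, y) = false) w) =
          (W \ W').filter (fun y => c s(w, y) = false) := by
        ext y; simp [Finset.bipartiteBelow, Sym2.eq_swap]
      rw [h3]
      exact h1
  -- one colour has all degrees small
  have hD : ∃ b, ∀ u, (nb c (!b) u).card < 13 * t := by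
    by_contra h
    push Not at h
    obtain ⟨u, hu⟩ := h true
    obtain ⟨v, hv⟩ := h false
    obtain ⟨W, -, hW, hc⟩ := hB _ u hu
    obtain ⟨W', -, hW', hc'⟩ := hB _ v hv
    exact hC W W' hW hW' (by simpa using hc) (by simpa using hc')
  obtain ⟨b, hb⟩ := hD
  have hbig : ∀ u, 14 * t + 2 ≤ (nb c b u).card := by
    intro u
    have h1 := card_nb c b u
    have h2 := hb u
    omega
  obtain ⟨u⟩ : Nonempty α := Fintype.card_pos_iff.1 (by omega)
  obtain ⟨W, hWu, hW, hc⟩ := hB b u (by have := hbig u; omega)
  obtain ⟨w, hw, hwW⟩ := exists_emb (β := Fin t) W (by simp; omega)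
  obtain ⟨ψ, hψ, hψm⟩ := (Finset.all_card_le_biUnion_card_iff_exists_injective
    (fun i : Fin t => nb c b (w i))).1 (by
      intro s
      rcases s.eq_empty_or_nonempty with rfl | ⟨i, hi⟩
      · simp
      · have h1 : s.card ≤ t := by simpa using card_le_univ s
        have h2 := card_le_card (Finset.subset_biUnion_of_mem (fun i : Fin t => nb c b (w i)) hi)
        have := hbig (w i)
        omega)
  have hψW : ∀ i, ψ i ∉ W := by
    intro i h
    have h1 := (mem_nb c).1 (hψm i)
    have h2 := hc _ (hwW i) _ h h1.1.symm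
    rw [h1.2] at h2
    cases b <;> simp at h2
  apply hno b
  refine found_of_matching c u (fun p => if p.2 then ψ p.1 else w p.1) ?_ ?_ ?_ ?_
  · rintro ⟨i, d⟩ ⟨j, e⟩ h
    cases d <;> cases e <;> simp only [if_true, Bool.false_eq_true, if_false] at h
    · rw [hw h]
    · exact absurd (h ▸ hwW i) (hψW j)
    · exact absurd (h ▸ hwW j) (hψW i)
    · rw [hψ h]
  · rintro ⟨i, d⟩
    have h0 := (mem_nb c).1 (hWu (hwW i))
    cases d <;> simp only [if_true, Bool.false_eq_true, if_false]
    · exact h0.1
    · intro h
      have h1 := ((mem_nb c).1 (hψm i)).2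
      rw [h, Sym2.eq_swap, h0.2] at h1
      cases b <;> simp at h1
  · intro i
    simpa using ((mem_nb c).1 (hψm i)).2
  · have h1 : nb c b u \ univ.image ψ ⊆
        nb c b u \ univ.image (fun p : Fin t × Bool => if p.2 then ψ p.1 else w p.1) := by
      intro x hx
      obtain ⟨h1, h2⟩ := mem_sdiff.1 hx
      refine mem_sdiff.2 ⟨h1, fun h => ?_⟩
      obtain ⟨⟨i, d⟩, -, h⟩ := mem_image.1 h
      cases d <;> simp only [if_true, Bool.false_eq_true, if_false] at h
      · have h3 := ((mem_nb c).1 (hWu (hwW i))).2
        rw [h, ((mem_nb c).1 h1).2] at h3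
        cases b <;> simp at h3
      · exact h2 (mem_image.2 ⟨i, mem_univ _, h⟩)
    have h2 := card_le_card h1
    have h3 := Finset.le_card_sdiff (univ.image ψ) (nb c b u)
    have h4 : (univ.image ψ).card ≤ t := by
      refine card_image_le.trans ?_
      simp
    have := hbig u
    omega

end two

/-- a monochromatic copy for any finite number of colours -/
theorem multi (a t : ℕ) (κ : Type) [Fintype κ] [Nonempty κ] : ∃ N : ℕ, ∀ c : Sym2 (Fin N) → κ,
    ∃ f : V a t → Fin N, Function.Injective f ∧ ∃ x, ∀ u v, adj u v → c s(f u, f v) = x := by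
  classical
  set n := Fintype.card (V a t) with hn
  set s := Fintype.card κ * n with hs
  set r := Fintype.card (Fin s → κ) * n with hr
  refine ⟨s + r, fun c => ?_⟩
  obtain ⟨y, hy⟩ := Fintype.exists_le_card_fiber_of_mul_le_card
    (fun j : Fin r => fun i : Fin s => c s(Fin.castAdd r i, Fin.natAdd s j)) (n := n) (by simp [hr])
  obtain ⟨x, hx⟩ := Fintype.exists_le_card_fiber_of_mul_le_card y (n := n) (by simp [hs])
  obtain ⟨e1, he1, h1⟩ := exists_emb (β := V a t) _ hx
  obtain ⟨e2, he2, h2⟩ := exists_emb (β := V a t) _ hy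
  simp only [mem_filter, mem_univ, true_and] at h1 h2
  let side : V a t → Bool := Sum.elim (fun o => o.isSome) (fun p => p.2)
  have hne : ∀ (i : Fin s) (j : Fin r), Fin.castAdd r i ≠ Fin.natAdd s j := by
    intro i j h
    have := congrArg Fin.val h
    simp at this
    omega
  refine ⟨fun v => if side v then Fin.castAdd r (e1 v) else Fin.natAdd s (e2 v), ?_, x, ?_⟩
  · intro u v h
    cases hu : side u <;> cases hv : side v <;> simp only [hu, hv, if_true, Bool.false_eq_true, if_false] at h
    · exact he2 (Fin.natAdd_injective _ _ h)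
    · exact absurd h.symm (hne _ _)
    · exact absurd h (hne _ _)
    · exact he1 (Fin.castAdd_injective _ _ h)
  · have key : ∀ u v, c s(Fin.castAdd r (e1 u), Fin.natAdd s (e2 v)) = x := by
      intro u v
      rw [← h1 u, ← h2 v]
    intro u v huv
    have hside : side u ≠ side v := by
      rcases u with (_ | u) | u <;> rcases v with (_ | v) | v <;> simp_all [adj, side]
    cases hu : side u <;> cases hv : side v <;> simp only [hu, hv, if_true, Bool.false_eq_true, if_false]
    · simp [hu, hv] at hside
    · rw [Sym2.eq_swap]; exact key v u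
    · exact key u v
    · simp [hu, hv] at hside

end Pool.Agent.H509Z.ZSRam
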