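import Pool.Agent.H509Z.ZSRam

set_option autoImplicit false

open Finset

namespace Pool.Agent.H509Z.ZSRam

/-- the forest, transported to `Fin k` -/
def G {a t k : ℕ} (e : Fin k ≃ V a t) : SimpleGraph (Fin k) where
  Adj u v := adj (e u) (e v)
  symm := ⟨fun _ _ h => adj_symm h⟩
  loopless := ⟨fun _ h => adj_irrefl _ h⟩

open Classical in
theorem sum_half {k : ℕ} (H : SimpleGraph (Fin k)) {M : Type} [AddCommMonoid M] (g : Fin k → M) :
    (∑ u, ∑ v, if u < v ∧ H.Adj u v then g u + g v else 0) =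
      ∑ u, ∑ v, if H.Adj u v then g u else 0 := by
  have h1 : (∑ u, ∑ v, if u < v ∧ H.Adj u v then g u + g v else 0) =
      (∑ u, ∑ v, if u < v ∧ H.Adj u v then g u else 0) +
      (∑ u, ∑ v, if u < v ∧ H.Adj u v then g v else 0) := by
    rw [← Finset.sum_add_distrib]
    refine Finset.sum_congr rfl fun u _ => ?_
    rw [← Finset.sum_add_distrib]
    refine Finset.sum_congr rfl fun v _ => ?_
    split_ifs <;> simp
  rw [h1, Finset.sum_comm (f := fun u v => if u < v ∧ H.Adj u v then g v else 0),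
    ← Finset.sum_add_distrib]
  refine Finset.sum_congr rfl fun u _ => ?_
  rw [← Finset.sum_add_distrib]
  refine Finset.sum_congr rfl fun v _ => ?_
  by_cases h : H.Adj u v
  · rcases lt_or_gt_of_ne h.ne with h' | h'
    · simp [h, h', h'.not_gt]
    · simp [h, h.symm, h', h'.not_gt]
  · have h' : ¬ H.Adj v u := fun h' => h h'.symm
    simp [h, h']

open Classical in
theorem sum_G {a t k : ℕ} (e : Fin k ≃ V a t) {M : Type} [AddCommMonoid M] (g : V a t → M) :
    (∑ u, ∑ v, if (G e).Adj u v then g (e u) else 0) =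
      a • g (Sum.inl none) + ((∑ i, g (Sum.inl (some i))) + ∑ p, g (Sum.inr p)) := by
  rw [← sum_adj g, ← Equiv.sum_comp e]
  refine Finset.sum_congr rfl fun u _ => ?_
  rw [← Equiv.sum_comp e]
  rfl

theorem G_acyclic {a t k : ℕ} (e : Fin k ≃ V a t) : (G e).IsAcyclic := by
  have key : ∀ u : Fin k, e u ≠ Sum.inl none → ∀ v w, (G e).Adj u v → (G e).Adj u w → v = w := by
    intro u hu v w hv hw
    apply e.injective
    change adj (e u) (e v) at hv
    change adj (e u) (e w) at hw
    generalize e u = x at *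
    generalize e v = y at *
    generalize e w = z at *
    rcases x with (_ | x) | ⟨i, b⟩
    · exact absurd rfl hu
    · rcases y with (_ | y) | y <;> rcases z with (_ | z) | z <;> simp_all [adj]
    · rcases y with (_ | y) | ⟨j, d⟩ <;> rcases z with (_ | z) | ⟨l, f⟩ <;> simp only [adj] at hv hw
      obtain ⟨rfl, h1⟩ := hv
      obtain ⟨rfl, h2⟩ := hw
      cases b <;> cases d <;> cases f <;> simp_all
  intro v p hp
  have hall : ∀ u ∈ p.support, e u = Sum.inl none := by
    intro u hu
    by_contra hne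
    have h2 := hp.ncard_neighborSet_toSubgraph_eq_two hu
    have h1 : (p.toSubgraph.neighborSet u).ncard ≤ 1 := by
      rw [Set.ncard_le_one_iff]
      intro x y hx hy
      exact key u hne x y (p.toSubgraph.adj_sub hx) (p.toSubgraph.adj_sub hy)
    omega
  have h1 := hall v p.start_mem_support
  have h2 := hall p.snd (p.getVert_mem_support 1)
  have h3 := p.adj_snd hp.not_nil
  exact h3.ne (e.injective (h1.trans h2.symm))

open Classical in
theorem count_G {a t k : ℕ} (e : Fin k ≃ V a t) :
    (∑ u, ∑ v, if (G e).Adj u v then 1 else 0) = 2 * (a + t) := by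
  rw [sum_G e (fun _ => (1 : ℕ))]
  simp
  ring

theorem G_edges {a t k : ℕ} (e : Fin k ≃ V a t) : (G e).edgeSet.ncard = a + t := by
  classical
  have h1 := (G e).sum_degrees_eq_twice_card_edges
  have h2 := count_G e
  have h3 : ∑ v, (G e).degree v = ∑ u, ∑ v, if (G e).Adj u v then 1 else 0 := by
    refine Finset.sum_congr rfl fun u _ => ?_
    rw [← SimpleGraph.card_neighborFinset_eq_degree, SimpleGraph.neighborFinset_eq_filter,
      Finset.card_filter]
  rw [← SimpleGraph.coe_edgeFinset, Set.ncard_coe_finset]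
  have h4 : (∑ u, ∑ v, if (G e).Adj u v then 1 else 0) = 2 * (a + t) := by convert h2
  omega

open Classical in
theorem mono_sum {a t k : ℕ} (e : Fin k ≃ V a t) (x : ZMod (a + t)) :
    (∑ u, ∑ v, if u < v ∧ (G e).Adj u v then x else 0) = 0 := by
  have h1 := sum_half (G e) (fun _ => (1 : ℕ))
  rw [count_G e] at h1
  have h2 : (∑ u, ∑ v, if u < v ∧ (G e).Adj u v then (1 + 1 : ℕ) else 0) =
      2 * ∑ u, ∑ v, if u < v ∧ (G e).Adj u v then (1 : ℕ) else 0 := by
    rw [Finset.mul_sum]
    refine Finset.sum_congr rfl fun u _ => ?_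
    rw [Finset.mul_sum]
    refine Finset.sum_congr rfl fun v _ => ?_
    split_ifs <;> simp
  have h3 : (∑ u, ∑ v, if u < v ∧ (G e).Adj u v then (1 : ℕ) else 0) = a + t := by omega
  have h4 : (∑ u, ∑ v, if u < v ∧ (G e).Adj u v then x else 0) =
      ((∑ u, ∑ v, if u < v ∧ (G e).Adj u v then (1 : ℕ) else 0 : ℕ) : ZMod (a + t)) * x := by
    push_cast
    rw [Finset.sum_mul]
    refine Finset.sum_congr rfl fun u _ => ?_
    rw [Finset.sum_mul]
    refine Finset.sum_congr rfl fun v _ => ?_
    split_ifs <;> simp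
  rw [h4, h3, ZMod.natCast_self, zero_mul]

/-- points of an injective family landing in a set of at most `n` points -/
theorem sum_le_of_inj {β : Type} [Fintype β] {N : ℕ} (f : β → Fin N) (hf : Function.Injective f)
    (P : Fin N → Prop) [DecidablePred P] :
    (∑ v, if P (f v) then 1 else 0) ≤ (univ.filter P).card := by
  rw [← Finset.card_filter]
  refine Finset.card_le_card_of_injOn f ?_ hf.injOn
  intro v hv
  simpa using hv

open Classical in
theorem lower {a t k : ℕ} (e : Fin k ≃ V a t) (ha : 1 ≤ a) (N : ℕ) (hN : N + 2 ≤ 2 * (a + t)) :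
    ∃ c : Sym2 (Fin N) → ZMod (a + t), ∀ f : Fin k → Fin N, Function.Injective f →
      (∑ u, ∑ v, if u < v ∧ (G e).Adj u v then c s(f u, f v) else 0) ≠ 0 := by
  let φ : Fin N → ℕ := fun x => if x.val + 1 < a + t then 1 else 0
  refine ⟨Sym2.lift ⟨fun x y => (φ x : ZMod (a + t)) + φ y, fun x y => add_comm _ _⟩, ?_⟩
  intro f hf
  simp only [Sym2.lift_mk]
  rw [sum_half (G e) (fun u => (φ (f u) : ZMod (a + t)))]
  have h0 := sum_G e (fun v => (φ (f (e.symm v)) : ZMod (a + t)))
  simp only [Equiv.symm_apply_apply] at h0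
  rw [h0]
  set F : V a t → Fin N := fun v => f (e.symm v) with hF
  have hFi : Function.Injective F := hf.comp e.symm.injective
  set h : ℕ := (∑ i, φ (F (Sum.inl (some i)))) + ∑ p, φ (F (Sum.inr p)) with hh
  have hcast : a • (φ (F (Sum.inl none)) : ZMod (a + t)) +
      ((∑ i, (φ (F (Sum.inl (some i))) : ZMod (a + t))) + ∑ p, (φ (F (Sum.inr p)) : ZMod (a + t))) =
      ((a * φ (F (Sum.inl none)) + h : ℕ) : ZMod (a + t)) := by
    rw [hh]; push_cast; rw [nsmul_eq_mul]
  change a • (φ (F (Sum.inl none)) : ZMod (a + t)) +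
      ((∑ i, (φ (F (Sum.inl (some i))) : ZMod (a + t))) + ∑ p, (φ (F (Sum.inr p)) : ZMod (a + t))) ≠ 0
  rw [hcast, Ne, ZMod.natCast_eq_zero_iff]
  have htot : ∑ v, φ (F v) = φ (F (Sum.inl none)) + h := by
    rw [Fintype.sum_sum_type, Fintype.sum_option, hh, add_assoc]
  have hY : (univ.filter fun x : Fin N => x.val + 1 < a + t).card + 1 ≤ a + t := by
    have : (univ.filter fun x : Fin N => x.val + 1 < a + t).card ≤ (range (a + t - 1)).card := by
      refine Finset.card_le_card_of_injOn (fun x => x.val) ?_ Fin.val_injective.injOn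
      intro x hx
      simp only [coe_filter, mem_univ, true_and, Set.mem_ofPred_eq] at hx
      simp only [coe_range, Set.mem_Iio]
      omega
    rw [card_range] at this
    omega
  have hX : (univ.filter fun x : Fin N => ¬ x.val + 1 < a + t).card + 1 ≤ a + t := by
    have : (univ.filter fun x : Fin N => ¬ x.val + 1 < a + t).card ≤ (Ico (a + t - 1) N).card := by
      refine Finset.card_le_card_of_injOn (fun x => x.val) ?_ Fin.val_injective.injOn
      intro x hx
      simp only [coe_filter, mem_univ, true_and, Set.mem_ofPred_eq] at hx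
      simp only [coe_Ico, Set.mem_Ico]
      have := x.2
      omega
    rw [Nat.card_Ico] at this
    omega
  have h1 : ∑ v, φ (F v) ≤ _ := sum_le_of_inj F hFi (fun x => x.val + 1 < a + t)
  have h2 := sum_le_of_inj F hFi (fun x => ¬ x.val + 1 < a + t)
  have h3 : ∑ v, φ (F v) + (∑ v, if ¬ (F v).val + 1 < a + t then 1 else 0) = 1 + a + 2 * t := by
    rw [← Finset.sum_add_distrib, ← card_V a t, ← Finset.card_univ, Finset.card_eq_sum_ones]
    refine Finset.sum_congr rfl fun v _ => ?_
    simp only [φ]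
    split_ifs <;> simp
  have h4 : φ (F (Sum.inl none)) = 0 ∨ φ (F (Sum.inl none)) = 1 := by
    simp only [φ]
    split_ifs <;> simp
  rintro ⟨q, hq⟩
  rcases h4 with h4 | h4 <;> rw [h4] at hq htot
  · rcases Nat.lt_or_ge q 1 with h5 | h5
    · have : q = 0 := by omega
      subst this
      omega
    · have := Nat.mul_le_mul_left (a + t) h5
      omega
  · rcases Nat.lt_or_ge q 2 with h5 | h5
    · have := Nat.mul_le_mul_left (a + t) (show q ≤ 1 by omega)
      omega
    · have := Nat.mul_le_mul_left (a + t) h5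
      omega

open Classical in
theorem zero_sum_ge {a t k : ℕ} (e : Fin k ≃ V a t) (ha : 1 ≤ a) :
    2 * (a + t) ≤ sInf {N : ℕ | ∀ c : Sym2 (Fin N) → ZMod (a + t), ∃ f : Fin k → Fin N,
        Function.Injective f ∧
        (∑ u : Fin k, ∑ v : Fin k,
          (if u < v ∧ (G e).Adj u v then c s(f u, f v) else (0 : ZMod (a + t)))) = 0} + 1 := by
  haveI : NeZero (a + t) := ⟨by omega⟩
  have hne : {N : ℕ | ∀ c : Sym2 (Fin N) → ZMod (a + t), ∃ f : Fin k → Fin N,
        Function.Injective f ∧
        (∑ u : Fin k, ∑ v : Fin k,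
          (if u < v ∧ (G e).Adj u v then c s(f u, f v) else (0 : ZMod (a + t)))) = 0}.Nonempty := by
    obtain ⟨N, hN⟩ := multi a t (ZMod (a + t))
    refine ⟨N, fun c => ?_⟩
    obtain ⟨f, hf, x, hx⟩ := hN c
    refine ⟨fun u => f (e u), hf.comp e.injective, ?_⟩
    refine Eq.trans ?_ (mono_sum e x)
    refine Finset.sum_congr rfl fun u _ => Finset.sum_congr rfl fun v _ => ?_
    split_ifs with h
    · exact hx _ _ h.2
    · rfl
  have hmem := Nat.sInf_mem hne
  by_contra hlt
  obtain ⟨c, hc⟩ := lower e ha _ (show _ + 2 ≤ 2 * (a + t) from not_le.1 hlt)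
  obtain ⟨f, hf, h0⟩ := hmem c
  exact hc f hf h0

theorem two_le {t k : ℕ} (e : Fin k ≃ V (13 * t) t) :
    sInf {N : ℕ | ∀ c : Sym2 (Fin N) → Bool, ∃ f : Fin k → Fin N,
        Function.Injective f ∧ ∃ b : Bool, ∀ u v : Fin k, (G e).Adj u v →
          c s(f u, f v) = b} ≤ 27 * t + 2 := by
  apply Nat.sInf_le
  intro c
  obtain ⟨b, f, hf, h⟩ := two_colour c t (by simp)
  exact ⟨fun u => f (e u), hf.comp e.injective, b, fun u v huv => h _ _ huv⟩

end Pool.Agent.H509Z.ZSRam
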